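import Pool.Agent.H561R2.CF.Grammar
import Pool.Agent.TH708.Tsp.Cfl2

/-!
# A context-free language and programs with few positions read both before and after a node

Nondeterministic branching programs for the words of length `n` of a language in `NL` can be taken of
polynomial size (the nodes are the configurations of the machine). Here all programs are considered
for which at every node `v` at most `m` positions of the word are read both before and after `v`: on
some walk from the start to `v` and on some walk from `v` to the accepting node. There is no bound on
how often a position is read on a walk. For read-once programs `m = 0`, and `m = n` is the general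
case.

There is a deterministic context-free language such that such programs, with edges which read at most
`b` letters at once, have `2 ^ Ω((log n) ^ 2 / k ^ 2)` nodes, provided that `b * m ≤ n ^ (1 - 1 / k)`
(and `8748 k ^ 2 ≤ log n`); so for instance for `b = 1` and `m ≤ n ^ (1 - ε)` they have
superpolynomial size `n ^ Ω(log n)`.

Proof: the words describe labellings of the ternary tree by orthogonal vectors over the field with two
elements; for each node of the tree there is a row for each pair (vector of the parent, vector of the
node), one of which is marked (the language, its automaton and the words are from the file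
`ReadOncePrograms`). Walks of accepted words are cut at a node `v` where many edges of the tree are
crossed; the words are divided by `v` and by the set of the marked rows which are read both before and
after `v`. Within such a class words can be mixed, so that the labels at the crossed edges whose ends
have no such row are nearly independent of each other only if they have few values. The number of
classes is paid for by the fact that the marked rows of a random word are spread: the expectation of
`q` to the number of the marked rows in a set of `m` positions is bounded if `m` is smaller than the
number `4 ^ l` of the rows of a node divided by a power of `q`.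
-/

set_option autoImplicit false

namespace Pool.Agent.Results.MP_5afa16_lc.FewDuplicatedPositions

open Pool.Agent.H561R2.CF (RDPDA NBP)
open Pool.Agent.TH708.Tsp.W (Between dup)

/-- There is a real-time deterministic pushdown automaton, whose language is context-free, such that
for all `k`, `n`, `b`, `m` with `(b m) ^ k ≤ n ^ (k - 1)` and `8748 k ^ 2 ≤ log n` there is a set
`F` of words of length `n` in the language such that: if `B` is a nondeterministic branching program
with `S` nodes whose edges read at most `b` letters, which for every node reads at most `m` positions
both before and after the node, and which accepts only words in the language, then `B` accepts at most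
`S |F| / 2 ^ ((log n) ^ 2 / (350 k ^ 2))` words in `F`. -/
theorem result : ∃ (Q G Γ : Type) (_ : Fintype Q) (_ : Fintype G) (_ : Fintype Γ)
    (M : RDPDA Q G Γ), M.language.IsContextFree ∧
    ∀ k n b m : ℕ, 1 ≤ k → 8748 * k ^ 2 ≤ Nat.log 2 n → 1 ≤ b → 1 ≤ m →
      (b * m) ^ k ≤ n ^ (k - 1) →
      ∃ F : Finset (Fin n → Γ), F.Nonempty ∧ (∀ w ∈ F, List.ofFn w ∈ M.language) ∧
        ∀ (S : ℕ) (B : NBP n Γ S), B.Width b → (∀ v, (dup B v).ncard ≤ m) →
          (∀ w, B.Accepts w → List.ofFn w ∈ M.language) →
          2 ^ ((Nat.log 2 n) ^ 2 / (350 * k ^ 2)) *
            {w : Fin n → Γ | w ∈ F ∧ B.Accepts w}.ncard ≤ S * F.card := by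
  classical
  refine ⟨Pool.Agent.H561R2.CF.St, Bool, Pool.Agent.H561R2.CF.Lt, inferInstance, inferInstance,
    inferInstance, Pool.Agent.H561R2.CF.mach, Pool.Agent.H561R2.CF.isContextFree,
    fun k n b m hk hn hb hm hbm => ?_⟩
  obtain ⟨F, h1, h2, h3⟩ := Pool.Agent.TH708.Tsp.W.mainStrong hk hn hb hm hbm
  refine ⟨F, h1, h2, fun S B hwd hdup hL => ?_⟩
  have h4 := h3 S B hwd hdup hL
  have h5 : {w : Fin n → Pool.Agent.H561R2.CF.Lt | w ∈ F ∧ B.Accepts w} =
      ↑(F.filter fun w => B.Accepts w) := by
    ext w
    simp
  rw [h5, Set.ncard_coe_finset]
  exact h4

end Pool.Agent.Results.MP_5afa16_lc.FewDuplicatedPositions
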