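import Pool.Agent.TH837.SW.Tree
import Pool.Agent.TH837.SW.Exact

/-!
# Trees: pure nondeterministic computations against pure dynamic programs

A (max,+) program (a pure dynamic program, a tropical circuit) computes functions of weights, one
after the other; each is an input, a real constant, or the maximum or the sum of two functions
computed before. It is skew if in each sum one of the summands is an input or a constant. Skew
programs are the same as the computation of heaviest paths in an acyclic graph whose edges are
labelled with inputs and constants (branching programs), the pure form of nondeterministic
logarithmic space, while the general ones are the pure form of the computations which use a pushdown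
store in addition, the class which is complete for the context-free languages.

A typical problem for general programs, with the structure of the derivation trees of context-free
grammars, is the weighted constraint satisfaction problem on a tree: each vertex gets one of `n`
values, for each edge and each pair of values of its ends there is a nonnegative weight, and the
question is how large the total weight of an assignment can be. General programs with `C n ^ 2`
instructions solve it exactly (part 3). For skew programs the theorem determines which approximation
ratio is possible with which exponent: skew programs with `C n ^ (v + 1)` instructions have the
ratio `v / (v + 1)` for each tree (part 1), and no better ratio for all trees (part 2): if `ε > 0`,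
then for the complete tree of height `v + 1` whose inner vertices have `D > 2 / ε` children, the
ratio `v / (v + 1) + ε` needs `n ^ (v + 2)` instructions up to a constant factor. So the thresholds
are `0, 1 / 2, 2 / 3, 3 / 4, …` for the exponents `1, 2, 3, 4, …`. (Trees with at most `D` children
of each vertex and height at most `h` are contained in the complete tree; the weights of the other
edges can be zero.)

The lower bound holds for programs whose values never exceed the optimum, and which reach the ratio
only if the inputs used by one assignment have certain fixed weights (each level of the tree has the
same total weight) and the others have weight zero. It holds for randomised programs with success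
probability `q`, up to the factor `q`.

Proof. The monomials of such a program are sets of inputs used by an assignment. Let a monomial be
produced by a skew program; at the gate where the input `c` is added, the vertices which are ends of
the edge of `c`, or which occur in the parts of the monomial which are added before and after, form
the bags of a path decomposition of the edges in the monomial. If all of them have at most `v + 1`
elements then the pathwidth is at most `v`, and a set of edges of pathwidth at most `v` does not
contain a complete ternary tree of height `v + 1`, so its weight is at most `v / (v + 1) + 2 / D` of
the total weight. Otherwise there is a gate with a bag of `v + 2` elements; but assignments with the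
same gate and the same `v + 2` elements agree on these, since parts of their monomials can be
exchanged. For part (1) each `(v + 1)`-st level of edges is deleted, in all `v + 1` possible ways;
the trees which are left have height at most `v`, and pathwidth at most `v`.
-/

set_option autoImplicit false

namespace Pool.Agent.Results.MP_5afa16_lc.SkewTreeThresholds

open Pool.Agent.TH837.SW
open Pool.Agent.TH837.MX (Computes)

theorem result (v : ℕ) :
    (∀ D h : ℕ, ∃ C : ℕ, ∀ n : ℕ, 1 ≤ n →
      ∃ f : (In (TE D h) n → ℝ) → ℝ, SkComputes f (C * n ^ (v + 1)) ∧
        ∀ w : In (TE D h) n → ℝ, (∀ e, 0 ≤ w e) →
          (∃ z : TV D h → Fin n, f w ≤ val (src D h) (tgt D h) Finset.univ z w) ∧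
          ∀ z : TV D h → Fin n,
            (v : ℝ) / (v + 1) * val (src D h) (tgt D h) Finset.univ z w ≤ f w) ∧
    (∀ (ε : ℝ) (D : ℕ), 2 < ε * D → ∀ (q : ℝ) (n : ℕ) (R : Type) [Fintype R] [Nonempty R]
      (f : R → (In (TE D (v + 1)) n → ℝ) → ℝ),
      Approx (src D (v + 1)) (tgt D (v + 1)) (lev D (v + 1)) (v / (v + 1) + ε) q f →
        ∀ m : ℕ, (∀ r, SkComputes (f r) m) →
          q * n ^ (v + 2) ≤ (Fintype.card (TV D (v + 1))).choose (v + 2) * m) ∧
    (∀ D h : ℕ, ∃ C : ℕ, ∀ n : ℕ, 1 ≤ n →
      ∃ f : (In (TE D h) n → ℝ) → ℝ, Computes f (C * n ^ 2) ∧
        ∀ w : In (TE D h) n → ℝ, (∀ e, 0 ≤ w e) →
          (∃ z : TV D h → Fin n, f w = val (src D h) (tgt D h) Finset.univ z w) ∧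
          ∀ z : TV D h → Fin n, val (src D h) (tgt D h) Finset.univ z w ≤ f w) :=
  ⟨fun D h => treeUpper D h v, fun _ _ hD _ _ _ _ _ _ hf _ hs => treeLower hD hf hs,
    fun D h => treeExact D h⟩

end Pool.Agent.Results.MP_5afa16_lc.SkewTreeThresholds
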