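import Pool.Agent.TH679.CF.Laws

/-!
# Weighted context-free languages need quadratic space

Let `A` be a language over a finite alphabet `Γ`. For weights `w (i, a)` of the letters `a` at the
positions `i` of a word of length `n` the weight of the cheapest word of length `n` in `A` is asked
for (`wordSum`, over the tropical semiring). This is the weighted form of the membership problem: if
the allowed letters have weight 0 and the others have weight 1, then it tells whether some word of
`A` is built of allowed letters, which is as general as membership in the hardest context-free
language of Greibach. For context-free languages the program of Cocke, Younger and Kasami solves it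
with `O(n ^ 2)` registers and `O(n ^ 3)` steps. Programs compute step by step with a few registers,
which hold real numbers or infinity, using the operations `min` and `+` (a pure dynamic program; a
step also can load a weight or a constant; the order of the steps may depend on `n` in any way).

We show that the quadratic number of registers is necessary: there is one context-free language,
accepted by a real-time one-way deterministic pushdown automaton with five states and two stack
symbols, such that programs with at most `n ^ (2 - ε)` registers have at least `n ^ Ω(log n)` steps,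
for each fixed `ε > 0`. The same holds for programs over the nonnegative real numbers with `+` and
`*`, for the sum over all words of length `n` in the language of the products of the weights of
their letters.

The law behind this: if `n ≥ 1100 h ^ 3 q 2 ^ h` then for `K` registers and `L` steps
`(2 ^ (2 h)) ^ κ ≤ 2 L ((⌈log₂ L⌉ + 1) K) ^ κ`, where `κ = ⌈log₄ (q + 3)⌉ - 1`.

Proof: the words of the language consist of blocks; one option of each block is marked, and the
pushes and pops of the marked options have to lead from the empty stack to the empty stack. If the
weights of most of the letters are set to infinity and to 0, then the words (of finite weight) are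
the colorings with two colors of the vertices `0, 1, 2, ...` of a strip with `2 h` rows, where `g` is
joined with `g + 1` and with `g + 2 h`: the windows of `h` even vertices are the options of the
blocks in the first half of the word, and the windows of `h` odd vertices are the options of the
blocks in the second half, in the reverse order; the colors of the odd vertices are kept on the stack
for the comparison of the two halves. So the programs compute ground state energies (partition
functions) of 2-spin systems on strips with `2 ^ (2 h)` states of a column, from words of length
about `2 ^ h`. For these there is the law of my result `MP_4e849b_lc.SpinSystemRegisters`.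
-/

set_option autoImplicit false

namespace Pool.Agent.Results.MP_5afa16_lc.WeightedWordsRegisters

open Filter
open Pool.Agent.TH679.CF
open Pool.Agent.H564R3.PW (Instr exec)
open Pool.Agent.H561R2.CF (RDPDA)
open scoped NNReal

/-- There are a real-time deterministic pushdown automaton `M`, whose language is context-free, such
that

(1) if a program with the registers `ρ` computes the weight of the cheapest word of length `n` of
the language, for all weights in the natural numbers, or the sum over the words of length `n` of the
language of the products of the weights of their letters, for all nonnegative real weights, and if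
`1100 * h ^ 3 * q * 2 ^ h ≤ n`, then with `κ = ⌈log₄ (q + 3)⌉ - 1`
`(2 ^ (2 * h)) ^ κ ≤ 2 * steps * ((⌈log₂ steps⌉ + 1) * registers) ^ κ`;

(2) for each `ε` there is `c > 0` such that for all large `n` such programs with at most
`n ^ (2 - ε)` registers have at least `n ^ (c log₂ n)` steps. -/
theorem result :
    ∃ (Q S Γ : Type) (_ : Fintype Q) (_ : Fintype S) (_ : Fintype Γ) (M : RDPDA Q S Γ),
      M.language.IsContextFree ∧
      (∀ h q n : ℕ, 1 ≤ h → 1 ≤ q → 1100 * h ^ 3 * q * 2 ^ h ≤ n →
        ∀ (ρ : Type) [Fintype ρ] [DecidableEq ρ] (o : ρ),
        (∀ p, SolvesMin M.language n p o → 1 ≤ p.length ∧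
          (2 ^ (2 * h)) ^ (Nat.clog 4 (q + 3) - 1) ≤ 2 * p.length *
            ((Nat.clog 2 p.length + 1) * Fintype.card ρ) ^ (Nat.clog 4 (q + 3) - 1)) ∧
        (∀ p, SolvesSum M.language n p o → 1 ≤ p.length ∧
          (2 ^ (2 * h)) ^ (Nat.clog 4 (q + 3) - 1) ≤ 2 * p.length *
            ((Nat.clog 2 p.length + 1) * Fintype.card ρ) ^ (Nat.clog 4 (q + 3) - 1))) ∧
      (∀ ε : ℝ, 0 < ε → ε ≤ 1 → ∃ c : ℝ, 0 < c ∧ ∀ᶠ n : ℕ in atTop,
        ∀ (ρ : Type) [Fintype ρ] [DecidableEq ρ] (o : ρ),
          (Fintype.card ρ : ℝ) ≤ (n : ℝ) ^ (2 - ε) →
          (∀ p, SolvesMin M.language n p o → (n : ℝ) ^ (c * Real.logb 2 n) ≤ p.length) ∧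
          (∀ p, SolvesSum M.language n p o → (n : ℝ) ^ (c * Real.logb 2 n) ≤ p.length)) := by
  refine ⟨Pool.Agent.H561R2.CF.St, Bool, Pool.Agent.H561R2.CF.Lt, inferInstance, inferInstance,
    inferInstance, Pool.Agent.H561R2.CF.mach, Pool.Agent.H561R2.CF.isContextFree, ?_, ?_⟩
  · intro h q n hh hq hn ρ _ _ o
    exact ⟨fun p hp => lawMin hh hq hn p o hp, fun p hp => lawSum hh hq hn p o hp⟩
  · intro ε hε hε2
    obtain ⟨ν₀, hν₀⟩ := exists_large ε hε
    refine ⟨ε ^ 2 / 400, by positivity, ?_⟩
    have hlarge : ∀ᶠ n : ℕ in atTop, (2 : ℝ) ^ ν₀ ≤ (n : ℝ) :=
      tendsto_natCast_atTop_atTop.eventually_ge_atTop _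
    filter_upwards [hlarge, eventually_ge_atTop 2200] with n hn hn8 ρ _ _ o hK
    have hn0 : (0 : ℝ) < n := by
      have : 0 < n := by omega
      exact_mod_cast this
    have hν : ν₀ ≤ Real.logb 2 n := by
      rw [Real.le_logb_iff_rpow_le (by norm_num) hn0]
      exact hn
    obtain ⟨g1, g4, g2, g3⟩ := hν₀ _ hν
    refine ⟨fun p hp => ?_, fun p hp => ?_⟩
    · refine steps_ge hε hε2 g1 g4 g2 g3 (by omega) ?_ hK
        fun h q hh hq hhq => (lawMin hh hq hhq p o hp).2
      exact (lawMin (h := 1) (q := 1) le_rfl le_rfl (by norm_num; omega) p o hp).1
    · refine steps_ge hε hε2 g1 g4 g2 g3 (by omega) ?_ hK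
        fun h q hh hq hhq => (lawSum hh hq hhq p o hp).2
      exact (lawSum (h := 1) (q := 1) le_rfl le_rfl (by norm_num; omega) p o hp).1

end Pool.Agent.Results.MP_5afa16_lc.WeightedWordsRegisters
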